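import Pool.Agent.H129Z.Dep.Lau

set_option autoImplicit false

namespace Pool.Agent.H129Z.Dep

variable {K : Type} [Field K]

/-- half-space `c ≤ ∑ w i * α i` -/
def HS (w : Fin 10 → ℕ) (c : ℤ) : Set (Fin 10 → ℤ) := {α | c ≤ ∑ i, (w i : ℤ) * α i}

theorem HS_up (w : Fin 10 → ℕ) (c : ℤ) : IsUpperSet (HS w c) := by
  intro α β h ha
  exact le_trans ha (Finset.sum_le_sum fun i _ => mul_le_mul_of_nonneg_left (h i) (by positivity))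

def spw (w : Fin 10 → ℕ) : Finset (Fin 10) := Finset.univ.filter fun i => w i ≠ 0

theorem HS_inv (w : Fin 10 → ℕ) (c : ℤ) (j : Fin 10) (hj : j ∉ spw w) :
    ∀ α ∈ HS w c, α - Pi.single j 1 ∈ HS w c := by
  intro α ha
  have h0 : w j = 0 := by simpa [spw] using hj
  have : ∑ i, (w i : ℤ) * (α - Pi.single j 1 : Fin 10 → ℤ) i = ∑ i, (w i : ℤ) * α i := by
    refine Finset.sum_congr rfl fun i _ => ?_
    by_cases h : i = j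
    · subst h; simp [h0]
    · simp [h]
  change c ≤ _
  rw [this]; exact ha

/-- weights of the thirteen half-spaces of `Rest` -/
def wR : Fin 10 ⊕ Fin 3 → Fin 10 → ℕ
  | .inl i => fun j => if j = i then 1 else 0
  | .inr 0 => ![1, 1, 0, 0, 0, 0, 0, 0, 0, 0]
  | .inr 1 => ![0, 0, 0, 0, 0, 1, 1, 0, 0, 0]
  | .inr 2 => ![1, 1, 0, 0, 0, 1, 1, 0, 0, 0]

def cR : Fin 10 ⊕ Fin 3 → ℤ
  | .inl _ => 0
  | .inr 0 => 3
  | .inr 1 => 3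
  | .inr 2 => 7

def wP : Fin 4 → Fin 10 → ℕ :=
  ![![0, 1, 3, 3, 0, 0, 0, 0, 0, 0], ![4, 3, 0, 0, 3, 0, 0, 0, 0, 0],
    ![0, 0, 0, 0, 0, 0, 1, 3, 3, 0], ![0, 0, 0, 0, 0, 4, 3, 0, 0, 3]]

def cP : Fin 4 → ℤ := ![3, 12, 3, 12]

def Rest (m : ℤ) : Set (Fin 10 → ℤ) := ⋂ k ∈ (Finset.univ : Finset (Fin 10 ⊕ Fin 3)), HS (wR k) (cR k * m)

def Phi (m : ℤ) (i : Fin 4) : Set (Fin 10 → ℤ) := HS (wP i) (cP i * m)

theorem Rest_up (m : ℤ) : IsUpperSet (Rest m) := isUpperSet_iInter₂ fun _ _ => HS_up _ _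

theorem mem_Rest (m : ℤ) (α : Fin 10 → ℤ) : α ∈ Rest m ↔ (∀ i, 0 ≤ α i) ∧ 3 * m ≤ α 0 + α 1 ∧
    3 * m ≤ α 5 + α 6 ∧ 7 * m ≤ α 0 + α 1 + α 5 + α 6 := by
  simp only [Rest, Finset.mem_univ, Set.iInter_true, Set.mem_iInter, Sum.forall, HS,
    Set.mem_ofPred_eq, Fin.forall_fin_succ (n := 2), Fin.forall_fin_succ (n := 1),
    Fin.forall_fin_succ (n := 0)]
  refine and_congr (forall_congr' fun i => by simp [wR, cR]) ?_
  simp [wR, cR, Fin.sum_univ_succ, add_assoc]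

theorem mem_Phi (m : ℤ) (α : Fin 10 → ℤ) :
    (α ∈ Phi m 0 ↔ 3 * m ≤ α 1 + 3 * α 2 + 3 * α 3) ∧
    (α ∈ Phi m 1 ↔ 12 * m ≤ 4 * α 0 + 3 * α 1 + 3 * α 4) ∧
    (α ∈ Phi m 2 ↔ 3 * m ≤ α 6 + 3 * α 7 + 3 * α 8) ∧
    (α ∈ Phi m 3 ↔ 12 * m ≤ 4 * α 5 + 3 * α 6 + 3 * α 9) := by
  simp [Phi, HS, wP, cP, Fin.sum_univ_succ, add_assoc]

theorem restZ (m : ℤ) (Z : Set (Fin 10 → ℤ)) (hZ : IsUpperSet Z) (sZ : Finset (Fin 10))
    (hs : ∀ j, j ∉ sZ → ∀ α ∈ Z, α - Pi.single j 1 ∈ Z) (V : Finset (Fin 10))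
    (h1 : ∀ k, (V ∩ spw (wR k)).card ≤ 1) (h2 : (V ∩ sZ).card ≤ 1) :
    DU K V.card (Rest m ∩ Z) := by
  have := DU.cover (K := K) (0 : Fin 10) (Finset.univ : Finset (Option (Fin 10 ⊕ Fin 3)))
    (fun o => o.elim Z fun k => HS (wR k) (cR k * m))
    (by rintro (_ | k); exacts [hZ, HS_up _ _]) (fun o => o.elim sZ fun k => spw (wR k))
    (by rintro (_ | k); exacts [hs, HS_inv _ _]) V (by rintro (_ | k) _; exacts [h2, h1 k])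
  convert this using 1
  ext α
  simp only [Rest, Finset.mem_univ, Set.iInter_true, Set.mem_iInter, Set.mem_inter_iff,
    Option.forall, Option.elim]
  exact and_comm

def cands : List (Finset (Fin 10)) :=
  [{2, 4, 7, 8, 9}, {2, 3, 7, 8, 9}, {2, 3, 4, 7, 9}, {2, 3, 4, 7, 8}, {0, 2, 4, 9}, {2, 5, 9},
    {0, 4, 7}, {2, 7, 8, 9}, {2, 3, 7, 8}, {2, 4, 7, 8}, {2, 3, 7, 9}, {2, 3, 4, 7},
    {2, 3, 4}, {7, 8, 9}]

theorem cands_ok : ∀ V ∈ cands, ∀ k, (V ∩ spw (wR k)).card ≤ 1 := by decide +kernel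

theorem cands_ex : ∀ A : Finset (Fin 4), A.Nonempty → A ≠ Finset.univ → ∃ V ∈ cands,
    6 ≤ V.card + A.card ∧ (V ∩ A.biUnion fun i => spw (wP i)).card ≤ 1 := by decide +kernel

theorem un_rest (m : ℤ) (A : Finset (Fin 4)) :
    (⋃ i ∈ A, (Rest m ∩ Phi m i)) = Rest m ∩ ⋃ i ∈ A, Phi m i := by
  simp only [Set.inter_iUnion]

theorem proper (m : ℤ) (A : Finset (Fin 4)) (h1 : A.Nonempty) (h2 : A ≠ Finset.univ) :
    DU K (5 + 1 - A.card) (⋃ i ∈ A, (Rest m ∩ Phi m i)) := by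
  obtain ⟨V, hV, h3, h4⟩ := cands_ex A h1 h2
  rw [un_rest]
  refine (restZ m _ (isUpperSet_iUnion₂ fun i _ => HS_up _ _) (A.biUnion fun i => spw (wP i))
    (fun j hj α ha => ?_) V (cands_ok V hV) h4).mono (by omega)
  simp only [Set.mem_iUnion] at ha ⊢
  obtain ⟨i, hi, h5⟩ := ha
  exact ⟨i, hi, HS_inv _ _ j (fun h6 => hj (Finset.mem_biUnion.mpr ⟨i, hi, h6⟩)) α h5⟩

/-- exponents of the integral closure of the `m`-th power (`m = 2, 3`) -/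
def Sig (m : ℤ) : Set (Fin 10 → ℤ) := ⋂ i ∈ (Finset.univ : Finset (Fin 4)), (Rest m ∩ Phi m i)

theorem Sig_up (m : ℤ) : IsUpperSet (Sig m) :=
  isUpperSet_iInter₂ fun _ _ => (Rest_up m).inter (HS_up _ _)

theorem mem_Sig (m : ℤ) (α : Fin 10 → ℤ) : α ∈ Sig m ↔ ((∀ i, 0 ≤ α i) ∧ 3 * m ≤ α 0 + α 1 ∧
    3 * m ≤ α 5 + α 6 ∧ 7 * m ≤ α 0 + α 1 + α 5 + α 6) ∧ 3 * m ≤ α 1 + 3 * α 2 + 3 * α 3 ∧
    12 * m ≤ 4 * α 0 + 3 * α 1 + 3 * α 4 ∧ 3 * m ≤ α 6 + 3 * α 7 + 3 * α 8 ∧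
    12 * m ≤ 4 * α 5 + 3 * α 6 + 3 * α 9 := by
  obtain ⟨h0, h1, h2, h3⟩ := mem_Phi m α
  rw [← h0, ← h1, ← h2, ← h3, ← mem_Rest]
  simp only [Sig, Finset.mem_univ, Set.iInter_true, Set.mem_iInter, Set.mem_inter_iff]
  constructor
  · intro h; exact ⟨(h 0).1, (h 0).2, (h 1).2, (h 2).2, (h 3).2⟩
  · rintro ⟨h, g0, g1, g2, g3⟩ i
    refine ⟨h, ?_⟩
    fin_cases i
    exacts [g0, g1, g2, g3]

theorem mem_all (m : ℤ) (α : Fin 10 → ℤ) :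
    α ∈ (⋃ i ∈ (Finset.univ : Finset (Fin 4)), (Rest m ∩ Phi m i)) ↔ α ∈ Rest m ∧
    (3 * m ≤ α 1 + 3 * α 2 + 3 * α 3 ∨ 12 * m ≤ 4 * α 0 + 3 * α 1 + 3 * α 4 ∨
    3 * m ≤ α 6 + 3 * α 7 + 3 * α 8 ∨ 12 * m ≤ 4 * α 5 + 3 * α 6 + 3 * α 9) := by
  obtain ⟨h0, h1, h2, h3⟩ := mem_Phi m α
  rw [← h0, ← h1, ← h2, ← h3, un_rest]
  simp only [Finset.mem_univ, Set.iUnion_true, Set.mem_iUnion, Set.mem_inter_iff]
  refine and_congr Iff.rfl ⟨?_, ?_⟩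
  · rintro ⟨i, hi⟩
    fin_cases i
    exacts [Or.inl hi, Or.inr (Or.inl hi), Or.inr (Or.inr (Or.inl hi)), Or.inr (Or.inr (Or.inr hi))]
  · rintro (h | h | h | h)
    exacts [⟨_, h⟩, ⟨_, h⟩, ⟨_, h⟩, ⟨_, h⟩]

theorem sig3 : DU K 5 (Sig 3) := by
  refine DU.fam (0 : Fin 10) _ _ _ (fun i => (Rest_up 3).inter (HS_up _ _)) fun A _ h1 => ?_
  by_cases h2 : A = Finset.univ
  · subst h2
    have : (⋃ i ∈ (Finset.univ : Finset (Fin 4)), (Rest 3 ∩ Phi 3 i)) = Rest 3 ∩ Set.univ := by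
      ext α
      rw [mem_all, Set.inter_univ]
      refine ⟨fun h => h.1, fun h => ⟨h, ?_⟩⟩
      obtain ⟨h0, -, -, h3⟩ := (mem_Rest 3 α).mp h
      have := h0 2; have := h0 3; have := h0 4; have := h0 7; have := h0 8; have := h0 9
      omega
    rw [this]
    exact (restZ 3 _ isUpperSet_univ ∅ (fun _ _ _ _ => trivial) {2, 3, 4}
      (cands_ok _ (by decide)) (by simp)).mono (by decide)
  · exact proper 3 A h1 h2

theorem sig2 : ¬ DU K 5 (Sig 2) := by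
  intro h
  have h1 := DU.fam_conv (K := K) (0 : Fin 10) Finset.univ (fun i => Rest 2 ∩ Phi 2 i) 5
    Finset.univ_nonempty (fun i => (Rest_up 2).inter (HS_up _ _)) (fun A _ h1 h2 => proper 2 A h1 h2) h
  refine DU.not_two (0 : Fin 10)
    (U := ⋃ i ∈ (Finset.univ : Finset (Fin 4)), (Rest 2 ∩ Phi 2 i)) (isUpperSet_iUnion₂ fun i _ => (Rest_up 2).inter (HS_up _ _))
    (Rest_up 2) ![2, 5, 0, 0, 0, 2, 5, 0, 0, 0] ?_ ?_ ?_ ?_ h1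
  · rw [mem_Rest]; decide +kernel
  · rw [mem_all, mem_Rest]; decide +kernel
  · intro i
    rw [mem_all, mem_Rest]; revert i; decide +kernel
  · intro α ha
    exact ((mem_all 2 α).mp ha).1

theorem orth : DU K 5 {α : Fin 10 → ℤ | 0 ≤ α} := by
  have := DU.cover (K := K) (0 : Fin 10) (Finset.univ : Finset (Fin 10))
    (fun k => HS (wR (.inl k)) 0) (fun _ => HS_up _ _) (fun k => spw (wR (.inl k)))
    (fun _ => HS_inv _ _) {2, 4, 7, 8, 9} (fun k _ => cands_ok _ (by decide) _)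
  have e : {α : Fin 10 → ℤ | 0 ≤ α} =
      ⋂ k ∈ (Finset.univ : Finset (Fin 10)), HS (wR (.inl k)) 0 := by
    ext α
    simp [HS, wR, Pi.le_def]
  rw [e]
  exact this.mono (by decide)

end Pool.Agent.H129Z.Dep
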