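import Mathlib

set_option autoImplicit false

namespace Pool.Agent.H129Z.Dep

open CategoryTheory Abelian

variable {R : Type} [CommRing R]

/-- `Ext^i(R/m, M) = 0` for all `i < n`. -/
def Dp (m : Ideal R) (n : ℕ) (M : Type) [AddCommGroup M] [Module R M] : Prop :=
  ∀ i < n, Subsingleton (Ext (ModuleCat.of R (R ⧸ m)) (ModuleCat.of R M) i)

variable {m : Ideal R} {A B C : Type} [AddCommGroup A] [Module R A] [AddCommGroup B] [Module R B]
  [AddCommGroup C] [Module R C]

theorem Dp.mono {n k : ℕ} (h : Dp m n A) (hk : k ≤ n) : Dp m k A :=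
  fun i hi => h i (lt_of_lt_of_le hi hk)

theorem Dp.zero : Dp m 0 A := fun _ hi => absurd hi (Nat.not_lt_zero _)

theorem sex (f : A →ₗ[R] B) (g : B →ₗ[R] C) (hf : Function.Injective f)
    (hg : Function.Surjective g) (h : Function.Exact f g) :
    (ModuleCat.shortComplexOfCompEqZero f g h.linearMap_comp_eq_zero).ShortExact :=
  ModuleCat.shortComplex_shortExact _ h hf hg

theorem Dp.mid (f : A →ₗ[R] B) (g : B →ₗ[R] C) (hf : Function.Injective f)
    (hg : Function.Surjective g) (h : Function.Exact f g) {n : ℕ} (hA : Dp m n A) (hC : Dp m n C) :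
    Dp m n B := by
  intro i hi
  have hS := sex f g hf hg h
  refine subsingleton_of_forall_eq 0 fun x => ?_
  obtain ⟨y, hy⟩ := Ext.covariant_sequence_exact₂ (ModuleCat.of R (R ⧸ m)) hS (n := i) x
    (@Subsingleton.elim _ (hC i hi) _ _)
  rw [← hy, @Subsingleton.elim _ (hA i hi) y 0]
  simp

theorem Dp.right (f : A →ₗ[R] B) (g : B →ₗ[R] C) (hf : Function.Injective f)
    (hg : Function.Surjective g) (h : Function.Exact f g) {n : ℕ} (hB : Dp m n B)
    (hA : Dp m (n + 1) A) : Dp m n C := by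
  intro i hi
  have hS := sex f g hf hg h
  refine subsingleton_of_forall_eq 0 fun x => ?_
  obtain ⟨y, hy⟩ := Ext.covariant_sequence_exact₃ (ModuleCat.of R (R ⧸ m)) hS (n₀ := i) x rfl
    (@Subsingleton.elim _ (hA (i + 1) (by omega)) _ _)
  rw [← hy, @Subsingleton.elim _ (hB i hi) y 0]
  simp

theorem Dp.left (f : A →ₗ[R] B) (g : B →ₗ[R] C) (hf : Function.Injective f)
    (hg : Function.Surjective g) (h : Function.Exact f g) {n : ℕ} (hB : Dp m n B)
    (hC : Dp m (n - 1) C) : Dp m n A := by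
  intro i hi
  have hS := sex f g hf hg h
  refine subsingleton_of_forall_eq 0 fun x => ?_
  rcases i with _ | i
  · have := hS.mono_f
    apply Ext.postcomp_mk₀_injective_of_mono (ModuleCat.of R (R ⧸ m))
      (ModuleCat.shortComplexOfCompEqZero f g h.linearMap_comp_eq_zero).f
    exact @Subsingleton.elim _ (hB 0 hi) _ _
  · obtain ⟨y, hy⟩ := Ext.covariant_sequence_exact₁ (ModuleCat.of R (R ⧸ m)) hS (n₁ := i + 1) x
      (@Subsingleton.elim _ (hB (i + 1) hi) _ _) (n₀ := i) rfl
    rw [← hy, @Subsingleton.elim _ (hC i (by omega)) y 0]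
    simp

theorem Dp.congr (e : A ≃ₗ[R] B) {n : ℕ} (hA : Dp m n A) : Dp m n B := by
  intro i hi
  refine subsingleton_of_forall_eq 0 fun x => ?_
  have h1 : x = (x.comp (Ext.mk₀ (ModuleCat.ofHom e.symm.toLinearMap)) (add_zero i)).comp
      (Ext.mk₀ (ModuleCat.ofHom e.toLinearMap)) (add_zero i) := by
    rw [Ext.comp_assoc_of_third_deg_zero, Ext.mk₀_comp_mk₀, ← ModuleCat.ofHom_comp]
    simp
  rw [h1, @Subsingleton.elim _ (hA i hi)
    (x.comp (Ext.mk₀ (ModuleCat.ofHom e.symm.toLinearMap)) (add_zero i)) 0]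
  simp

theorem smul_ext_zero {x : R} (hx : x ∈ m) (M : ModuleCat.{0} R) (i : ℕ)
    (e : Ext (ModuleCat.of R (R ⧸ m)) M i) : e.comp (Ext.mk₀ (x • 𝟙 M)) (add_zero i) = 0 := by
  have h := Ext.postcomp_smul_id_eq_zero_of_mem_annihilator (M := M)
    (N := ModuleCat.of R (R ⧸ m)) (r := x) (by
      change x ∈ Module.annihilator R (R ⧸ m)
      rwa [Ideal.annihilator_quotient]) i
  have := congrArg (fun φ => φ.hom e) h
  simpa using this

theorem Dp.of_bij {x : R} (hx : x ∈ m) (hb : Function.Bijective (fun a : A => x • a)) (n : ℕ) :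
    Dp m n A := by
  intro i _
  refine subsingleton_of_forall_eq 0 fun e => ?_
  let E : A ≃ₗ[R] A := LinearEquiv.ofBijective (LinearMap.lsmul R A x) hb
  have h1 : e = (e.comp (Ext.mk₀ (x • 𝟙 (ModuleCat.of R A))) (add_zero i)).comp
      (Ext.mk₀ (ModuleCat.ofHom E.symm.toLinearMap)) (add_zero i) := by
    rw [Ext.comp_assoc_of_third_deg_zero, Ext.mk₀_comp_mk₀]
    have : (x • 𝟙 (ModuleCat.of R A)) ≫ ModuleCat.ofHom E.symm.toLinearMap = 𝟙 _ := by
      ext a
      change E.symm (x • a) = a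
      exact E.symm_apply_apply a
    rw [this]; simp
  rw [h1, smul_ext_zero hx]
  simp

theorem Dp.of_inj {x : R} (hx : x ∈ m) (hb : Function.Injective (fun a : A => x • a)) :
    Dp m 1 A := by
  intro i hi
  obtain rfl : i = 0 := by omega
  refine subsingleton_of_forall_eq 0 fun e => ?_
  have : Mono (x • 𝟙 (ModuleCat.of R A)) := by
    rw [ModuleCat.mono_iff_injective]; exact hb
  apply Ext.postcomp_mk₀_injective_of_mono (ModuleCat.of R (R ⧸ m)) (x • 𝟙 (ModuleCat.of R A))
  simpa using smul_ext_zero hx (ModuleCat.of R A) 0 e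

theorem Dp.socle (h : Dp m 1 A) (z : A) (hz : ∀ x ∈ m, x • z = 0) : z = 0 := by
  let φ : (R ⧸ m) →ₗ[R] A := m.liftQ (LinearMap.toSpanSingleton R A z) (fun x hx => by
    simpa using hz x hx)
  have h1 : Ext.mk₀ (ModuleCat.ofHom φ) = 0 := @Subsingleton.elim _ (h 0 one_pos) _ _
  have h2 : ModuleCat.ofHom φ = 0 := by
    apply (Ext.addEquiv₀ (X := ModuleCat.of R (R ⧸ m)) (Y := ModuleCat.of R A)).symm.injective
    simpa using h1
  have h3 : φ = 0 := by simpa using congrArg ModuleCat.Hom.hom h2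
  have h4 : φ (Submodule.Quotient.mk 1) = z := by
    simp only [φ, Submodule.liftQ_apply, LinearMap.toSpanSingleton_apply, one_smul]
  rw [← h4, h3]; rfl

theorem Dp.prod {n : ℕ} (hA : Dp m n A) (hB : Dp m n B) : Dp m n (A × B) :=
  Dp.mid (LinearMap.inl R A B) (LinearMap.snd R A B) LinearMap.inl_injective
    LinearMap.snd_surjective Function.Exact.inl_snd hA hB

section MV
variable {L : Type} [AddCommGroup L] [Module R L] (P Q : Submodule R L)

def mvf : (P ⊓ Q : Submodule R L) →ₗ[R] (P × Q) :=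
  (Submodule.inclusion inf_le_left).prod (Submodule.inclusion inf_le_right)

def mvg : (P × Q) →ₗ[R] (P ⊔ Q : Submodule R L) :=
  (Submodule.inclusion le_sup_left).coprod (-Submodule.inclusion le_sup_right)

theorem mvf_inj : Function.Injective (mvf P Q) := by
  intro x y h
  have := congrArg (fun z => (z.1 : L)) h
  exact Subtype.ext this

theorem mvg_surj : Function.Surjective (mvg P Q) := by
  rintro ⟨x, hx⟩
  obtain ⟨a, ha, b, hb, rfl⟩ := Submodule.mem_sup.mp hx
  refine ⟨(⟨a, ha⟩, ⟨-b, Q.neg_mem hb⟩), Subtype.ext ?_⟩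
  simp [mvg]

theorem mv_exact : Function.Exact (mvf P Q) (mvg P Q) := by
  rintro ⟨⟨a, ha⟩, ⟨b, hb⟩⟩
  constructor
  · intro h
    have h1 : a = b := by
      have := congrArg Subtype.val h
      simp [mvg] at this
      exact add_neg_eq_zero.mp this
    subst h1
    exact ⟨⟨a, ha, hb⟩, rfl⟩
  · rintro ⟨⟨c, hc⟩, h⟩
    have h1 : c = a := congrArg (fun z => (z.1 : L)) h
    have h2 : c = b := congrArg (fun z => (z.2 : L)) h
    subst h1; subst h2
    apply Subtype.ext
    simp [mvg]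

variable {P Q}

theorem Dp.inf {n : ℕ} (hP : Dp m n P) (hQ : Dp m n Q)
    (h : Dp m (n - 1) (P ⊔ Q : Submodule R L)) : Dp m n (P ⊓ Q : Submodule R L) :=
  Dp.left _ _ (mvf_inj P Q) (mvg_surj P Q) (mv_exact P Q) (hP.prod hQ) h

theorem Dp.sup {n : ℕ} (hP : Dp m n P) (hQ : Dp m n Q)
    (h : Dp m (n + 1) (P ⊓ Q : Submodule R L)) : Dp m n (P ⊔ Q : Submodule R L) :=
  Dp.right _ _ (mvf_inj P Q) (mvg_surj P Q) (mv_exact P Q) (hP.prod hQ) h

end MV

theorem Dp.quot {L : Type} [AddCommGroup L] [Module R L] (P : Submodule R L) {n : ℕ}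
    (hL : Dp m n L) (hP : Dp m (n + 1) P) : Dp m n (L ⧸ P) :=
  Dp.right P.subtype P.mkQ P.injective_subtype P.mkQ_surjective (LinearMap.exact_subtype_mkQ P)
    hL hP

theorem Dp.sub {L : Type} [AddCommGroup L] [Module R L] (P : Submodule R L) {n : ℕ}
    (hL : Dp m n L) (hP : Dp m (n - 1) (L ⧸ P)) : Dp m n P :=
  Dp.left P.subtype P.mkQ P.injective_subtype P.mkQ_surjective (LinearMap.exact_subtype_mkQ P)
    hL hP

theorem supp_quot : Module.support R (ModuleCat.of R (R ⧸ m)) = PrimeSpectrum.zeroLocus m := by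
  change Module.support R (R ⧸ m) = _
  rw [Module.support_eq_zeroLocus, Ideal.annihilator_quotient]

theorem dp_iff [IsNoetherianRing R] [Module.Finite R A] (hlt : m • (⊤ : Submodule R A) < ⊤)
    (n : ℕ) : Dp m n A ↔
      ∃ rs : List R, rs.length = n ∧ (∀ r ∈ rs, r ∈ m) ∧ RingTheory.Sequence.IsRegular A rs := by
  constructor
  · intro h
    exact ModuleCat.exists_isRegular_of_exists_subsingleton_ext m n (ModuleCat.of R A) hlt
      (ModuleCat.of R (R ⧸ m)) supp_quot h
  · rintro ⟨rs, hl, hm, hr⟩ i hi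
    exact ModuleCat.subsingleton_ext_of_exists_isRegular m (ModuleCat.of R (R ⧸ m))
      supp_quot.subset (ModuleCat.of R A) hlt rs hm hr i (hl ▸ hi)

end Pool.Agent.H129Z.Dep
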