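import Pool.Agent.H129Z.Dep.Comb

set_option autoImplicit false

namespace Pool.Agent.H129Z.Dep

open MvPolynomial

variable {K : Type} [Field K]

def ws (w : Fin 10 → ℕ) (s : Fin 10 →₀ ℕ) : ℕ := ∑ i, w i * s i

noncomputable def ph (w : Fin 10 → ℕ) :
    MvPolynomial (Fin 10) K →ₐ[K] Polynomial (MvPolynomial (Fin 10) K) :=
  aeval fun i => Polynomial.C (X i) * Polynomial.X ^ w i

theorem ph_monomial (w : Fin 10 → ℕ) (s : Fin 10 →₀ ℕ) (c : K) :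
    ph w (monomial s c) = Polynomial.C (monomial s c) * Polynomial.X ^ ws w s := by
  rw [ph, aeval_monomial, Finsupp.prod_fintype _ _ (by simp), monomial_eq,
    Finsupp.prod_fintype _ _ (by simp)]
  simp only [mul_pow, Finset.prod_mul_distrib, ← pow_mul, Finset.prod_pow_eq_pow_sum, map_mul,
    map_prod, map_pow, ws, mul_assoc]
  rfl

theorem coeff_ph (w : Fin 10 → ℕ) (f : MvPolynomial (Fin 10) K) (s : Fin 10 →₀ ℕ) :
    coeff s ((ph w f).coeff (ws w s)) = coeff s f := by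
  induction f using MvPolynomial.induction_on' with
  | monomial t c =>
    rw [ph_monomial, Polynomial.coeff_C_mul_X_pow]
    by_cases h : t = s
    · subst h; simp
    · split_ifs
      · rfl
      · simp [coeff_monomial, h]
  | add p q hp hq => simp [hp, hq]

theorem le_of_dvd (w : Fin 10 → ℕ) (f : MvPolynomial (Fin 10) K) (u : ℕ)
    (h : Polynomial.X ^ u ∣ ph w f) (s : Fin 10 →₀ ℕ) (hs : coeff s f ≠ 0) : u ≤ ws w s := by
  by_contra hn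
  apply hs
  rw [← coeff_ph w, Polynomial.X_pow_dvd_iff.mp h _ (by omega)]
  simp

theorem dvd_of_int {A : Type} [CommRing A] [IsDomain A] (g : Polynomial A) (c n : ℕ)
    (b : ℕ → Polynomial A) (hb : ∀ i, Polynomial.X ^ (c * i) ∣ b i)
    (h : g ^ n + ∑ i ∈ Finset.range n, b (n - i) * g ^ i = 0) : Polynomial.X ^ c ∣ g := by
  have key : ∀ u ≤ c, Polynomial.X ^ u ∣ g := by
    intro u
    induction u with
    | zero => simp
    | succ u ih =>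
      intro hu
      obtain ⟨q, rfl⟩ := ih (by omega)
      have h1 : (Polynomial.X : Polynomial A) ^ (u * n + 1) ∣ (Polynomial.X ^ u * q) ^ n := by
        rw [eq_neg_of_add_eq_zero_left h, dvd_neg]
        refine Finset.dvd_sum fun i hi => ?_
        have hi' := Finset.mem_range.mp hi
        obtain ⟨d, rfl⟩ : ∃ d, n = i + (d + 1) := ⟨n - i - 1, by omega⟩
        rw [Nat.add_sub_cancel_left, mul_pow, ← pow_mul, ← mul_assoc]
        refine Dvd.dvd.mul_right (dvd_trans ?_ (mul_dvd_mul_right (hb (d + 1)) _)) _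
        rw [← pow_add]
        apply pow_dvd_pow
        nlinarith [Nat.mul_le_mul_right (d + 1) hu]
      rw [mul_pow, ← pow_mul, pow_succ,
        mul_dvd_mul_iff_left (pow_ne_zero _ Polynomial.X_ne_zero)] at h1
      rw [pow_succ]
      exact mul_dvd_mul_left _ (Polynomial.prime_X.dvd_of_dvd_pow h1)
  exact key c le_rfl

/-- generating exponents -/
def SS : Set (Fin 10 →₀ ℕ) := {s | emb s ∈ Sig 1}

variable (K) in
noncomputable abbrev II : Ideal (MvPolynomial (Fin 10) K) :=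
  Ideal.span ((fun s : Fin 10 →₀ ℕ => monomial s (1 : K)) '' SS)

variable (K) in
noncomputable abbrev JJ (m : ℕ) : Ideal (MvPolynomial (Fin 10) K) := Ideal.span
  {f : MvPolynomial (Fin 10) K | ∃ n : ℕ, 1 ≤ n ∧ ∃ a : ℕ → MvPolynomial (Fin 10) K,
    (∀ i : ℕ, a i ∈ ((II K) ^ m) ^ i) ∧ f ^ n + ∑ i ∈ Finset.range n, a (n - i) * f ^ i = 0}

theorem mem_HS (w : Fin 10 → ℕ) (c : ℤ) (s : Fin 10 →₀ ℕ) : emb s ∈ HS w c ↔ c ≤ ws w s := by
  simp [HS, ws, emb]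

theorem hs_of_int (w : Fin 10 → ℕ) (c : ℕ) (hw : ∀ s ∈ SS, c ≤ ws w s) (m : ℕ)
    (f : MvPolynomial (Fin 10) K) (n : ℕ) (a : ℕ → MvPolynomial (Fin 10) K)
    (ha : ∀ i : ℕ, a i ∈ ((II K) ^ m) ^ i)
    (h : f ^ n + ∑ i ∈ Finset.range n, a (n - i) * f ^ i = 0) (s : Fin 10 →₀ ℕ)
    (hs : coeff s f ≠ 0) : c * m ≤ ws w s := by
  have h1 : (II K).map (ph w) ≤ Ideal.span {Polynomial.X ^ c} := by
    rw [Ideal.map_span, Ideal.span_le]
    rintro _ ⟨_, ⟨t, ht, rfl⟩, rfl⟩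
    rw [SetLike.mem_coe, Ideal.mem_span_singleton, ph_monomial]
    exact Dvd.dvd.mul_left (pow_dvd_pow _ (hw t ht)) _
  refine le_of_dvd w f _ (dvd_of_int _ (c * m) n (fun i => ph w (a i)) (fun i => ?_) ?_) s hs
  · have h2 := Ideal.mem_map_of_mem (ph w) (ha i)
    rw [Ideal.map_pow, Ideal.map_pow] at h2
    have h3 := Ideal.pow_right_mono (Ideal.pow_right_mono h1 m) i h2
    rwa [Ideal.span_singleton_pow, Ideal.span_singleton_pow, Ideal.mem_span_singleton, ← pow_mul,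
      ← pow_mul, ← mul_assoc] at h3
  · simpa using congrArg (ph w) h

theorem cR_nonneg (k : Fin 10 ⊕ Fin 3) : 0 ≤ cR k := by revert k; decide
theorem cP_nonneg (k : Fin 4) : 0 ≤ cP k := by revert k; decide

theorem mem_Sig' (m : ℤ) (α : Fin 10 → ℤ) : α ∈ Sig m ↔
    (∀ k, α ∈ HS (wR k) (cR k * m)) ∧ ∀ i, α ∈ HS (wP i) (cP i * m) := by
  simp only [Sig, Rest, Phi, Finset.mem_univ, Set.iInter_true, Set.mem_iInter, Set.mem_inter_iff]
  exact ⟨fun h => ⟨(h 0).1, fun i => (h i).2⟩, fun h i => ⟨h.1, h.2 i⟩⟩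

theorem sig_of_mem (m : ℕ) (p : MvPolynomial (Fin 10) K) (hp : p ∈ JJ K m) (s : Fin 10 →₀ ℕ)
    (hs : coeff s p ≠ 0) : emb s ∈ Sig m := by
  have : JJ K m ≤ (N K (Sig m)).comap (Algebra.linearMap _ _) := by
    rw [Ideal.span_le]
    rintro f ⟨n, -, a, ha, h⟩
    refine (mem_N (Sig_up m)).mpr fun α hα => ?_
    obtain ⟨t, rfl⟩ := co_iota_ne f α hα
    have ht : coeff t f ≠ 0 := by rw [← co_iota]; exact hα
    have key : ∀ (w : Fin 10 → ℕ) (c : ℤ), 0 ≤ c → (∀ s ∈ SS, emb s ∈ HS w (c * 1)) →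
        emb t ∈ HS w (c * m) := by
      intro w c hc hw
      lift c to ℕ using hc
      rw [mem_HS]
      exact_mod_cast hs_of_int w c (fun s hs => by
        have := (mem_HS _ _ _).mp (hw s hs)
        rw [mul_one] at this
        exact_mod_cast this) m f n a ha h t ht
    exact (mem_Sig' _ _).mpr
      ⟨fun k => key _ _ (cR_nonneg k) fun s hs => ((mem_Sig' _ _).mp hs).1 k,
        fun k => key _ _ (cP_nonneg k) fun s hs => ((mem_Sig' _ _).mp hs).2 k⟩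
  exact (mem_N (Sig_up m)).mp (this hp) _ (by
    change co (iota p) (emb s) ≠ 0
    rwa [co_iota])

theorem pair_le {A : Type} [CommRing A] (I H L H' L' E : Ideal A) (h1 : H * H' ≤ I)
    (h2 : H * L' ≤ I) (h3 : L * H' ≤ I) (h4 : L * L' * E ≤ I) (h l h' l' e n : ℕ)
    (e1 : h + l = n) (e2 : h' + l' = n) (e3 : l + l' ≤ n + e) :
    H ^ h * L ^ l * (H' ^ h' * L' ^ l') * E ^ e ≤ I ^ n := by
  rcases le_total l h' with hl | hl
  · obtain ⟨d, rfl⟩ := Nat.exists_eq_add_of_le hl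
    obtain rfl : h = d + l' := by omega
    have : H ^ (d + l') * L ^ l * (H' ^ (l + d) * L' ^ l') * E ^ e =
        (L * H') ^ l * (H * H') ^ d * (H * L') ^ l' * E ^ e := by ring
    rw [this, ← e2, pow_add, pow_add]
    exact Ideal.mul_le_left.trans (Ideal.mul_mono (Ideal.mul_mono (Ideal.pow_right_mono h3 _)
      (Ideal.pow_right_mono h1 _)) (Ideal.pow_right_mono h2 _))
  · obtain ⟨d, rfl⟩ := Nat.exists_eq_add_of_le hl
    obtain rfl : l' = h + d := by omega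
    obtain ⟨r, rfl⟩ : ∃ r, e = d + r := ⟨e - d, by omega⟩
    have : H ^ h * L ^ (h' + d) * (H' ^ h' * L' ^ (h + d)) * E ^ (d + r) =
        (L * H') ^ h' * ((H * L') ^ h * (L * L' * E) ^ d) * E ^ r := by ring
    rw [this, ← e2, pow_add, pow_add]
    exact Ideal.mul_le_left.trans (Ideal.mul_mono (Ideal.pow_right_mono h3 _)
      (Ideal.mul_mono (Ideal.pow_right_mono h2 _) (Ideal.pow_right_mono h4 _)))

/-- monomial with exponent vector `v` -/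
noncomputable def mo (v : Fin 10 → ℕ) : MvPolynomial (Fin 10) K :=
  monomial (Finsupp.equivFunOnFinite.symm v) 1

theorem mo_add (v w : Fin 10 → ℕ) : (mo (v + w) : MvPolynomial (Fin 10) K) = mo v * mo w := by
  rw [mo, mo, mo, monomial_mul, mul_one]; congr 2; ext i; simp

theorem mo_smul (n : ℕ) (v : Fin 10 → ℕ) : (mo (n • v) : MvPolynomial (Fin 10) K) = mo v ^ n := by
  rw [mo, mo, monomial_pow, one_pow]; congr 2; ext i; simp

variable (K) in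
noncomputable def sp (l : List (Fin 10 → ℕ)) : Ideal (MvPolynomial (Fin 10) K) :=
  Ideal.span (mo '' {v | v ∈ l})

theorem mo_mem {l : List (Fin 10 → ℕ)} {v : Fin 10 → ℕ} (h : v ∈ l) : mo v ∈ sp K l :=
  Ideal.subset_span ⟨v, h, rfl⟩

def good (v : Fin 10 → ℕ) : Prop := 3 ≤ v 0 + v 1 ∧ 3 ≤ v 5 + v 6 ∧ 7 ≤ v 0 + v 1 + v 5 + v 6 ∧
  3 ≤ v 1 + 3 * v 2 + 3 * v 3 ∧ 12 ≤ 4 * v 0 + 3 * v 1 + 3 * v 4 ∧ 3 ≤ v 6 + 3 * v 7 + 3 * v 8 ∧
  12 ≤ 4 * v 5 + 3 * v 6 + 3 * v 9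

instance (v : Fin 10 → ℕ) : Decidable (good v) := by unfold good; infer_instance

theorem mo_mem_II {v : Fin 10 → ℕ} (h : good v) : mo v ∈ II K := by
  refine Ideal.subset_span ⟨_, ?_, rfl⟩
  change _ ∈ Sig 1
  rw [mem_Sig]
  obtain ⟨h1, h2, h3, h4, h5, h6, h7⟩ := h
  simp only [emb, AddMonoidHom.coe_mk, ZeroHom.coe_mk, Finsupp.equivFunOnFinite_symm_apply_apply]
  refine ⟨⟨fun i => by positivity, ?_, ?_, ?_⟩, ?_, ?_, ?_, ?_⟩ <;> omega

theorem sp_mul_le {l l' : List (Fin 10 → ℕ)} (h : ∀ v ∈ l, ∀ w ∈ l', good (v + w)) :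
    sp K l * sp K l' ≤ II K := by
  rw [sp, sp, Ideal.span_mul_span', Ideal.span_le]
  rintro _ ⟨_, ⟨v, hv, rfl⟩, _, ⟨w, hw, rfl⟩, rfl⟩
  simp only [← mo_add]
  exact mo_mem_II (h v hv w hw)

theorem sp_mul_le3 {l l' l'' : List (Fin 10 → ℕ)}
    (h : ∀ v ∈ l, ∀ w ∈ l', ∀ u ∈ l'', good (v + w + u)) :
    sp K l * sp K l' * sp K l'' ≤ II K := by
  rw [sp, sp, sp, Ideal.span_mul_span', Ideal.span_mul_span', Ideal.span_le]
  rintro _ ⟨_, ⟨_, ⟨v, hv, rfl⟩, _, ⟨w, hw, rfl⟩, rfl⟩, _, ⟨u, hu, rfl⟩, rfl⟩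
  simp only [← mo_add]
  exact mo_mem_II (h v hv w hw u hu)

def v0 : Fin 10 → ℕ := ![1, 3, 0, 0, 0, 0, 0, 0, 0, 0]
def v1 : Fin 10 → ℕ := ![0, 4, 0, 0, 0, 0, 0, 0, 0, 0]
def v2 : Fin 10 → ℕ := ![3, 0, 1, 0, 0, 0, 0, 0, 0, 0]
def v3 : Fin 10 → ℕ := ![3, 0, 0, 1, 0, 0, 0, 0, 0, 0]
def v4 : Fin 10 → ℕ := ![0, 3, 0, 0, 1, 0, 0, 0, 0, 0]
def u0 : Fin 10 → ℕ := ![0, 0, 0, 0, 0, 1, 3, 0, 0, 0]
def u1 : Fin 10 → ℕ := ![0, 0, 0, 0, 0, 0, 4, 0, 0, 0]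
def u2 : Fin 10 → ℕ := ![0, 0, 0, 0, 0, 3, 0, 1, 0, 0]
def u3 : Fin 10 → ℕ := ![0, 0, 0, 0, 0, 3, 0, 0, 1, 0]
def u4 : Fin 10 → ℕ := ![0, 0, 0, 0, 0, 0, 3, 0, 0, 1]
def e0 : Fin 10 → ℕ := ![1, 0, 0, 0, 0, 0, 0, 0, 0, 0]
def e1 : Fin 10 → ℕ := ![0, 1, 0, 0, 0, 0, 0, 0, 0, 0]
def e5 : Fin 10 → ℕ := ![0, 0, 0, 0, 0, 1, 0, 0, 0, 0]
def e6 : Fin 10 → ℕ := ![0, 0, 0, 0, 0, 0, 1, 0, 0, 0]

theorem block (M a b p r q : ℕ) (h1 : M ≤ a + b) (h2 : M ≤ b + 3 * p + 3 * r)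
    (h3 : 4 * M ≤ 4 * a + 3 * b + 3 * q) (h4 : 4 * M ≤ 3 * (a + b + p + r + q)) :
    ∃ n0 n1 n2 n3 n4 ea eb f2 f3 f4 : ℕ, n0 + n1 + (n2 + n3 + n4) = M ∧
      n0 + 3 * n2 + 3 * n3 + ea = 3 * a ∧ 3 * n0 + 4 * n1 + 3 * n4 + eb = 3 * b ∧
      n2 + f2 = 3 * p ∧ n3 + f3 = 3 * r ∧ n4 + f4 = 3 * q := by
  obtain ⟨u, hu⟩ : ∃ u, u = min (3 * p + 3 * r) (min a M) := ⟨_, rfl⟩
  obtain ⟨x, hx⟩ : ∃ x, x = min (M - u) (3 * a - 3 * u) := ⟨_, rfl⟩
  obtain ⟨y, hy⟩ : ∃ y, y = min (M - u - x) (3 * q) := ⟨_, rfl⟩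
  obtain ⟨z, hz⟩ : ∃ z, z = min u (3 * p) := ⟨_, rfl⟩
  refine ⟨x, M - u - x - y, z, u - z, y, 3 * a - x - 3 * u,
    3 * b - 3 * x - 4 * (M - u - x - y) - 3 * y, 3 * p - z, 3 * r - (u - z), 3 * q - y,
    ?_, ?_, ?_, ?_, ?_, ?_⟩ <;> omega

theorem cube_mem (m : ℕ) (hm : m ≤ 3) (v : Fin 10 → ℕ)
    (hv : emb (Finsupp.equivFunOnFinite.symm v) ∈ Sig m) :
    (mo v : MvPolynomial (Fin 10) K) ^ 3 ∈ (II K ^ m) ^ 3 := by
  rw [mem_Sig] at hv
  simp only [emb, AddMonoidHom.coe_mk, ZeroHom.coe_mk,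
    Finsupp.equivFunOnFinite_symm_apply_apply] at hv
  obtain ⟨⟨-, h1, h2, h3⟩, h4, h5, h6, h7⟩ := hv
  obtain ⟨n0, n1, n2, n3, n4, ea, eb, f2, f3, f4, g1, g2, g3, g4, g5, g6⟩ :=
    block (m * 3) (v 0) (v 1) (v 2) (v 3) (v 4) (by omega) (by omega) (by omega) (by omega)
  obtain ⟨k0, k1, k2, k3, k4, ec, ed, f7, f8, f9, j1, j2, j3, j4, j5, j6⟩ :=
    block (m * 3) (v 5) (v 6) (v 7) (v 8) (v 9) (by omega) (by omega) (by omega) (by omega)
  have hv : 3 • v = (n0 • v0 + n1 • v1) + (n2 • v2 + n3 • v3 + n4 • v4) +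
      ((k0 • u0 + k1 • u1) + (k2 • u2 + k3 • u3 + k4 • u4)) +
      (ea • e0 + eb • e1 + ec • e5 + ed • e6) + ![0, 0, f2, f3, f4, 0, 0, f7, f8, f9] := by
    ext i
    fin_cases i <;>
      simp [v0, v1, v2, v3, v4, u0, u1, u2, u3, u4, e0, e1, e5, e6] <;> omega
  rw [← mo_smul, hv, ← pow_mul, mo_add]
  refine Ideal.mul_mem_right _ _ (pair_le (II K) (sp K [v0, v1]) (sp K [v2, v3, v4])
    (sp K [u0, u1]) (sp K [u2, u3, u4]) (sp K [e0, e1, e5, e6])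
    (sp_mul_le (by decide +kernel)) (sp_mul_le (by decide +kernel))
    (sp_mul_le (by decide +kernel)) (sp_mul_le3 (by decide +kernel))
    (n0 + n1) (n2 + n3 + n4) (k0 + k1) (k2 + k3 + k4) (ea + eb + ec + ed) (m * 3) g1 j1
    (by omega) ?_)
  simp only [mo_add, mo_smul, pow_add]
  repeat' apply Ideal.mul_mem_mul
  all_goals exact Ideal.pow_mem_pow (mo_mem (by simp)) _

theorem mem_JJ (m : ℕ) (hm : m ≤ 3) (p : MvPolynomial (Fin 10) K) :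
    p ∈ JJ K m ↔ ∀ s, coeff s p ≠ 0 → emb s ∈ Sig m := by
  refine ⟨sig_of_mem m p, fun h => ?_⟩
  rw [p.as_sum]
  refine Ideal.sum_mem _ fun s hs => ?_
  have e : monomial s (coeff s p) = C (coeff s p) * mo s := by
    rw [mo, Finsupp.equivFunOnFinite_symm_coe, C_mul_monomial, mul_one]
  rw [e]
  refine Ideal.mul_mem_left _ _ (Ideal.subset_span ⟨3, by norm_num,
    fun i => if i = 3 then -(mo s) ^ 3 else 0, fun i => ?_, ?_⟩)
  · beta_reduce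
    split_ifs with hi
    · subst hi
      refine neg_mem (cube_mem m hm s ?_)
      rw [Finsupp.equivFunOnFinite_symm_coe]
      exact h s (mem_support_iff.mp hs)
    · exact zero_mem _
  · simp [Finset.sum_range_succ]

theorem dp_R : Dp (mm K (Fin 10)) 5 (MvPolynomial (Fin 10) K) := by
  have := (dp_ideal_iff (K := K) (U := {α : Fin 10 → ℤ | 0 ≤ α}) (fun _ _ h ha => le_trans ha h)
    (fun _ h => h) ⊤ (fun p => ⟨fun _ s _ i => by simp [emb], fun _ => trivial⟩) 5).mpr orth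
  exact Dp.congr Submodule.topEquiv this

theorem dp_JJ (m : ℕ) (hm : m ≤ 3) : Dp (mm K (Fin 10)) 5 (JJ K m) ↔ DU K 5 (Sig m) :=
  dp_ideal_iff (Sig_up m) (fun _ h => ((mem_Sig _ _).mp h).1.1) _ (mem_JJ m hm) 5

theorem smul_lt (m : ℕ) (h1 : 1 ≤ m) :
    mm K (Fin 10) • (⊤ : Submodule (MvPolynomial (Fin 10) K) (MvPolynomial (Fin 10) K ⧸ JJ K m)) < ⊤ := by
  have hker : ∀ x ∈ mm K (Fin 10), coeff 0 x = 0 := by
    intro x hx
    have : mm K (Fin 10) ≤ RingHom.ker constantCoeff := by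
      rw [Ideal.span_le]
      rintro _ ⟨i, rfl⟩
      simp
    exact this hx
  rw [lt_top_iff_ne_top]
  intro h
  have h2 := congrArg (Submodule.comap (Submodule.mkQ (JJ K m))) h
  rw [Submodule.comap_smul_top_of_surjective _ _ (Submodule.mkQ_surjective _), Submodule.ker_mkQ,
    Submodule.comap_top] at h2
  have h3 : (1 : MvPolynomial (Fin 10) K) ∈ mm K (Fin 10) • (⊤ : Ideal _) ⊔ JJ K m := by
    rw [h2]; trivial
  obtain ⟨x, hx, y, hy, hxy⟩ := Submodule.mem_sup.mp h3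
  rw [smul_eq_mul, Ideal.mul_top] at hx
  have h4 : coeff 0 y ≠ 0 := by
    have := congrArg (coeff 0) hxy
    rw [coeff_add, hker x hx, zero_add] at this
    rw [this]; simp
  have h5 := ((mem_Sig _ _).mp (sig_of_mem m y hy 0 h4)).1.2.1
  simp at h5
  omega

theorem reg3 : ∃ rs : List (MvPolynomial (Fin 10) K), rs.length = 4 ∧ (∀ r ∈ rs, r ∈ mm K (Fin 10)) ∧
    RingTheory.Sequence.IsRegular (MvPolynomial (Fin 10) K ⧸ JJ K 3) rs :=
  (dp_iff (smul_lt 3 (by norm_num)) 4).mp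
    (Dp.quot (JJ K 3) (dp_R.mono (by norm_num)) ((dp_JJ 3 le_rfl).mpr sig3))

theorem reg2 : ¬ ∃ rs : List (MvPolynomial (Fin 10) K), rs.length = 4 ∧
    (∀ r ∈ rs, r ∈ mm K (Fin 10)) ∧
    RingTheory.Sequence.IsRegular (MvPolynomial (Fin 10) K ⧸ JJ K 2) rs := fun h =>
  sig2 ((dp_JJ 2 (by norm_num)).mp
    (Dp.sub (JJ K 2) dp_R ((dp_iff (smul_lt 2 (by norm_num)) 4).mpr h)))

end Pool.Agent.H129Z.Dep
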