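import Pool.Agent.H129Z.Dep.Ext

set_option autoImplicit false

namespace Pool.Agent.H129Z.Dep

open MvPolynomial

/-- Laurent polynomials, as a module over the polynomial ring. -/
def Lau (K σ : Type) [Field K] : Type := AddMonoidAlgebra K (σ → ℤ)

variable {K σ : Type} [Field K] [DecidableEq σ]

noncomputable instance : CommRing (Lau K σ) :=
  inferInstanceAs (CommRing (AddMonoidAlgebra K (σ → ℤ)))

def emb : (σ →₀ ℕ) →+ (σ → ℤ) where
  toFun s i := (s i : ℤ)
  map_zero' := by ext i; simp
  map_add' s t := by ext i; simp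

omit [DecidableEq σ] in
theorem emb_inj : Function.Injective (emb (σ := σ)) := by
  intro s t h
  ext i
  have := congrFun h i
  simpa [emb] using this

noncomputable def iota : MvPolynomial σ K →+* Lau K σ :=
  AddMonoidAlgebra.mapDomainRingHom K (emb (σ := σ))

noncomputable instance : Algebra (MvPolynomial σ K) (Lau K σ) := (iota (K := K) (σ := σ)).toAlgebra

def co (f : Lau K σ) (α : σ → ℤ) : K := AddMonoidAlgebra.coeff f α

noncomputable def sg (α : σ → ℤ) (c : K) : Lau K σ := AddMonoidAlgebra.single α c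

omit [DecidableEq σ] in
theorem co_add (f g : Lau K σ) (α : σ → ℤ) : co (f + g) α = co f α + co g α := rfl

omit [DecidableEq σ] in
theorem co_zero (α : σ → ℤ) : co (0 : Lau K σ) α = 0 := rfl

omit [DecidableEq σ] in
theorem co_ext {f g : Lau K σ} (h : ∀ α, co f α = co g α) : f = g :=
  AddMonoidAlgebra.coeff_injective (Finsupp.ext h)

omit [DecidableEq σ] in
theorem co_sg_mul (β : σ → ℤ) (c : K) (f : Lau K σ) (α : σ → ℤ) :
    co (sg β c * f) α = c * co f (-β + α) :=
  AddMonoidAlgebra.coeff_single_mul_apply f c β α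

omit [DecidableEq σ] in
theorem co_sg_ne {β α : σ → ℤ} (c : K) (h : β ≠ α) : co (sg β c : Lau K σ) α = 0 := by
  change (Finsupp.single β c) α = 0
  exact Finsupp.single_eq_of_ne (Ne.symm h)

omit [DecidableEq σ] in
theorem co_sg_self (β : σ → ℤ) (c : K) : co (sg β c : Lau K σ) β = c := by
  change (Finsupp.single β c) β = c
  simp

omit [DecidableEq σ] in
theorem iota_monomial (s : σ →₀ ℕ) (c : K) : iota (monomial s c) = sg (emb s) c := by
  change AddMonoidAlgebra.mapDomain emb (AddMonoidAlgebra.single s c) = _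
  rw [AddMonoidAlgebra.mapDomain_single]; rfl

omit [DecidableEq σ] in
theorem co_monomial_smul (s : σ →₀ ℕ) (c : K) (f : Lau K σ) (α : σ → ℤ) :
    co ((monomial s c : MvPolynomial σ K) • f) α = c * co f (-emb s + α) := by
  rw [Algebra.smul_def]
  change co (iota (monomial s c) * f) α = _
  rw [iota_monomial, co_sg_mul]

theorem emb_single (i : σ) : emb (Finsupp.single i 1) = Pi.single i 1 := by
  ext j
  by_cases h : j = i
  · subst h; simp [emb]
  · simp [emb, h]

theorem co_X_smul (i : σ) (f : Lau K σ) (α : σ → ℤ) :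
    co ((X i : MvPolynomial σ K) • f) α = co f (α - Pi.single i 1) := by
  rw [X, co_monomial_smul, emb_single, one_mul, neg_add_eq_sub]

omit [DecidableEq σ] in
theorem co_iota (p : MvPolynomial σ K) (s : σ →₀ ℕ) : co (iota p) (emb s) = coeff s p := by
  change Finsupp.mapDomain emb (AddMonoidAlgebra.coeff p) (emb s) = _
  rw [Finsupp.mapDomain_apply emb_inj]; rfl

omit [DecidableEq σ] in
theorem co_iota_ne (p : MvPolynomial σ K) (α : σ → ℤ) (h : co (iota p) α ≠ 0) :
    ∃ s, emb s = α := by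
  by_contra hn
  apply h
  change Finsupp.mapDomain emb (AddMonoidAlgebra.coeff p) α = _
  exact Finsupp.mapDomain_of_notMem_range _ _ hn

variable (K) in
/-- The submodule spanned by the monomials all of whose multiples have exponent in `U`. -/
def N (U : Set (σ → ℤ)) : Submodule (MvPolynomial σ K) (Lau K σ) where
  carrier := {f | ∀ α, co f α ≠ 0 → ∀ β, α ≤ β → β ∈ U}
  add_mem' := by
    intro f g hf hg α h
    rw [co_add] at h
    by_cases h1 : co f α = 0
    · exact hg α (by simpa [h1] using h)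
    · exact hf α h1
  zero_mem' := fun α h => absurd (co_zero α) h
  smul_mem' := by
    intro p f hf
    induction p using MvPolynomial.induction_on' with
    | monomial s c =>
      intro α h β hb
      rw [co_monomial_smul] at h
      refine hf _ (right_ne_zero_of_mul h) β (le_trans ?_ hb)
      intro i
      simp [emb]
    | add p q hp hq =>
      intro α h
      rw [add_smul, co_add] at h
      by_cases h1 : co (p • f) α = 0
      · exact hq α (by simpa [h1] using h)
      · exact hp α h1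

omit [DecidableEq σ] in
theorem mem_N {U : Set (σ → ℤ)} (hU : IsUpperSet U) {f : Lau K σ} :
    f ∈ N K U ↔ ∀ α, co f α ≠ 0 → α ∈ U :=
  ⟨fun h α ha => h α ha α le_rfl, fun h α ha _ hb => hU hb (h α ha)⟩

omit [DecidableEq σ] in
theorem N_inter (U V : Set (σ → ℤ)) : N K (U ∩ V) = N K U ⊓ N K V := by
  ext f
  exact ⟨fun h => ⟨fun α ha β hb => (h α ha β hb).1, fun α ha β hb => (h α ha β hb).2⟩,
    fun h α ha β hb => ⟨h.1 α ha β hb, h.2 α ha β hb⟩⟩

omit [DecidableEq σ] in
theorem N_union {U V : Set (σ → ℤ)} (hU : IsUpperSet U) (hV : IsUpperSet V) :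
    N K (U ∪ V) = N K U ⊔ N K V := by
  classical
  apply le_antisymm
  · intro f hf
    rw [mem_N (hU.union hV)] at hf
    let f1 : Lau K σ := AddMonoidAlgebra.ofCoeff ((AddMonoidAlgebra.coeff f).filter (· ∈ U))
    let f2 : Lau K σ := AddMonoidAlgebra.ofCoeff ((AddMonoidAlgebra.coeff f).filter (· ∉ U))
    have h1 : ∀ α, co f1 α = if α ∈ U then co f α else 0 := fun α => Finsupp.filter_apply _ _ _
    have h2 : ∀ α, co f2 α = if α ∉ U then co f α else 0 := fun α => Finsupp.filter_apply _ _ _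
    refine Submodule.mem_sup.mpr ⟨f1, (mem_N hU).mpr fun α ha => ?_, f2,
      (mem_N hV).mpr fun α ha => ?_, co_ext fun α => ?_⟩
    · by_contra h; simp [h1, h] at ha
    · rw [h2] at ha
      by_cases h : α ∈ U
      · simp [h] at ha
      · exact (hf α (by simpa [h] using ha)).resolve_left h
    · rw [co_add, h1, h2]; by_cases h : α ∈ U <;> simp [h]
  · exact sup_le (fun f hf α ha β hb => Or.inl (hf α ha β hb))
      (fun f hf α ha β hb => Or.inr (hf α ha β hb))

variable (K σ) in
/-- The homogeneous maximal ideal. -/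
noncomputable abbrev mm : Ideal (MvPolynomial σ K) := Ideal.span (Set.range (fun i : σ => (X i : MvPolynomial σ K)))

variable (K) in
def DU (n : ℕ) (U : Set (σ → ℤ)) : Prop := Dp (mm K σ) n (N K U)

omit [DecidableEq σ] in
theorem X_mem (i : σ) : (X i : MvPolynomial σ K) ∈ mm K σ := Ideal.subset_span ⟨i, rfl⟩

theorem X_inj (i : σ) (U : Set (σ → ℤ)) :
    Function.Injective (fun a : N K U => (X i : MvPolynomial σ K) • a) := by
  intro f g h
  apply Subtype.ext
  refine co_ext fun α => ?_
  have := congrArg (fun z : N K U => co (z : Lau K σ) (α + Pi.single i 1)) h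
  simpa [co_X_smul] using this

theorem DU.one (i : σ) (U : Set (σ → ℤ)) : DU K 1 U := Dp.of_inj (X_mem i) (X_inj i U)

theorem DU.inv (i : σ) {U : Set (σ → ℤ)} (hU : IsUpperSet U)
    (h : ∀ α ∈ U, α - Pi.single i 1 ∈ U) (n : ℕ) : DU K n U := by
  refine Dp.of_bij (X_mem i) ⟨X_inj i U, ?_⟩ n
  rintro ⟨f, hf⟩
  refine ⟨⟨sg (-Pi.single i 1) 1 * f, (mem_N hU).mpr fun α ha => ?_⟩, Subtype.ext ?_⟩
  · rw [co_sg_mul, one_mul] at ha
    have := h _ ((mem_N hU).mp hf _ ha)
    simpa using this
  · refine co_ext fun α => ?_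
    change co ((X i : MvPolynomial σ K) • (sg (-Pi.single i 1) 1 * f)) α = co f α
    rw [co_X_smul, co_sg_mul]; simp

omit [DecidableEq σ] in
theorem DU.mono {n k : ℕ} {U : Set (σ → ℤ)} (h : DU K n U) (hk : k ≤ n) : DU K k U :=
  Dp.mono h hk

omit [DecidableEq σ] in
theorem DU.inter {n : ℕ} {U V : Set (σ → ℤ)} (hU : IsUpperSet U) (hV : IsUpperSet V)
    (h1 : DU K n U) (h2 : DU K n V) (h3 : DU K (n - 1) (U ∪ V)) : DU K n (U ∩ V) := by
  unfold DU at *
  rw [N_inter]; rw [N_union hU hV] at h3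
  exact Dp.inf h1 h2 h3

omit [DecidableEq σ] in
theorem DU.union {n : ℕ} {U V : Set (σ → ℤ)} (hU : IsUpperSet U) (hV : IsUpperSet V)
    (h1 : DU K n U) (h2 : DU K n V) (h3 : DU K (n + 1) (U ∩ V)) : DU K n (U ∪ V) := by
  unfold DU at *
  rw [N_union hU hV]; rw [N_inter] at h3
  exact Dp.sup h1 h2 h3

section Fam
variable {ι : Type} [DecidableEq ι]

omit [DecidableEq σ] in
theorem un_ins (h : ι → Set (σ → ℤ)) (a : ι) {A : Finset ι} (hA : A.Nonempty) :
    (⋃ i ∈ A, (h i ∪ h a)) = ⋃ i ∈ insert a A, h i := by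
  ext α
  obtain ⟨j, hj⟩ := hA
  simp only [Set.mem_iUnion, Set.mem_union, Finset.mem_insert, exists_prop]
  constructor
  · rintro ⟨i, hi, h1 | h1⟩
    · exact ⟨i, Or.inr hi, h1⟩
    · exact ⟨a, Or.inl rfl, h1⟩
  · rintro ⟨i, rfl | hi, h1⟩
    · exact ⟨j, hj, Or.inr h1⟩
    · exact ⟨i, hi, Or.inl h1⟩

omit [DecidableEq σ] [DecidableEq ι] in
theorem in_un (h : ι → Set (σ → ℤ)) (a : ι) (s : Finset ι) :
    (⋂ i ∈ s, h i) ∪ h a = ⋂ i ∈ s, (h i ∪ h a) := by
  ext α
  simp only [Set.mem_iInter, Set.mem_union]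
  by_cases ha : α ∈ h a <;> simp [ha]

omit [DecidableEq σ] in
theorem in_ins (h : ι → Set (σ → ℤ)) (a : ι) (s : Finset ι) :
    (⋂ i ∈ insert a s, h i) = (⋂ i ∈ s, h i) ∩ h a := by
  rw [Finset.set_biInter_insert, Set.inter_comm]

theorem DU.fam (i0 : σ) (s : Finset ι) : ∀ (h : ι → Set (σ → ℤ)) (n : ℕ), (∀ i, IsUpperSet (h i)) →
    (∀ A ⊆ s, A.Nonempty → DU K (n + 1 - A.card) (⋃ i ∈ A, h i)) → DU K n (⋂ i ∈ s, h i) := by
  induction s using Finset.induction_on with
  | empty =>
    intro h n _ _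
    simpa using DU.inv i0 isUpperSet_univ (fun _ _ => trivial) n
  | insert a s ha ih =>
    intro h n hu H
    rw [in_ins]
    refine DU.inter (isUpperSet_iInter₂ fun i _ => hu i) (hu a)
      (ih h n hu fun A hA hn => H A (hA.trans (Finset.subset_insert _ _)) hn) ?_ ?_
    · simpa using H {a} (by simp) (by simp)
    · rw [in_un]
      refine ih _ _ (fun i => (hu i).union (hu a)) fun A hA hn => ?_
      rw [un_ins h a hn]
      have h1 := H (insert a A) (Finset.insert_subset_insert _ hA) (by simp)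
      rw [Finset.card_insert_of_notMem (fun h2 => ha (hA h2))] at h1
      have := hn.card_pos
      exact h1.mono (by omega)

theorem DU.fam_conv (i0 : σ) (s : Finset ι) : ∀ (h : ι → Set (σ → ℤ)) (n : ℕ), s.Nonempty →
    (∀ i, IsUpperSet (h i)) →
    (∀ A ⊆ s, A.Nonempty → A ≠ s → DU K (n + 1 - A.card) (⋃ i ∈ A, h i)) →
    DU K n (⋂ i ∈ s, h i) → DU K (n + 1 - s.card) (⋃ i ∈ s, h i) := by
  induction s using Finset.induction_on with
  | empty => intro h n hn; simp at hn
  | insert a s ha ih =>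
    intro h n _ hu H H0
    rcases s.eq_empty_or_nonempty with rfl | hs
    · simpa using H0
    rw [Finset.card_insert_of_notMem ha]
    rcases n with _ | n
    · have : 0 + 1 - (s.card + 1) = 0 := by omega
      rw [this]; exact Dp.zero
    have h1 : DU K (n + 1) (⋂ i ∈ s, h i) := DU.fam i0 s h _ hu fun A hA hn =>
      H A (hA.trans (Finset.subset_insert _ _)) hn (fun h2 => ha (hA (h2 ▸ Finset.mem_insert_self _ _)))
    have h2 : DU K (n + 1) (h a) := by
      obtain ⟨j, hj⟩ := hs
      have : ({a} : Finset ι) ≠ insert a s := fun h3 => by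
        have : j ∈ ({a} : Finset ι) := h3 ▸ Finset.mem_insert_of_mem hj
        exact ha (Finset.mem_singleton.mp this ▸ hj)
      simpa using H {a} (by simp) (by simp) this
    rw [in_ins] at H0
    have h3 := DU.union (isUpperSet_iInter₂ fun i _ => hu i) (hu a) (h1.mono (Nat.le_succ n))
      (h2.mono (Nat.le_succ n)) H0
    rw [in_un] at h3
    have h4 := ih _ n hs (fun i => (hu i).union (hu a)) (fun A hA hn hne => ?_) h3
    · rw [un_ins h a hs] at h4
      exact h4.mono (by omega)
    · rw [un_ins h a hn]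
      have h5 := H (insert a A) (Finset.insert_subset_insert _ hA) (by simp) (fun h6 => hne (by
        have := congrArg (fun t => t.erase a) h6
        simpa [Finset.erase_insert ha, Finset.erase_insert (fun h2 => ha (hA h2))] using this))
      rw [Finset.card_insert_of_notMem (fun h2 => ha (hA h2))] at h5
      exact h5.mono (by omega)

theorem DU.cover (i0 : σ) (s : Finset ι) (h : ι → Set (σ → ℤ)) (hu : ∀ i, IsUpperSet (h i))
    (sp : ι → Finset σ) (hsp : ∀ i j, j ∉ sp i → ∀ α ∈ h i, α - Pi.single j 1 ∈ h i)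
    (V : Finset σ) (hV : ∀ i ∈ s, (V ∩ sp i).card ≤ 1) : DU K V.card (⋂ i ∈ s, h i) := by
  refine DU.fam i0 s h _ hu fun A hA hn => ?_
  by_cases hc : V.card ≤ A.card
  · exact (DU.one i0 _).mono (by omega)
  have : ∃ j ∈ V, ∀ i ∈ A, j ∉ sp i := by
    by_contra hn
    push Not at hn
    apply hc
    calc V.card ≤ (A.biUnion fun i => V ∩ sp i).card := Finset.card_le_card fun j hj => by
          obtain ⟨i, hi, hj2⟩ := hn j hj
          exact Finset.mem_biUnion.mpr ⟨i, hi, Finset.mem_inter.mpr ⟨hj, hj2⟩⟩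
      _ ≤ ∑ i ∈ A, (V ∩ sp i).card := Finset.card_biUnion_le
      _ ≤ ∑ _i ∈ A, 1 := Finset.sum_le_sum fun i hi => hV i (hA hi)
      _ = A.card := by simp
  obtain ⟨j, _, hj⟩ := this
  refine DU.inv j (isUpperSet_iUnion₂ fun i _ => hu i) (fun α ha => ?_) _
  simp only [Set.mem_iUnion] at ha ⊢
  obtain ⟨i, hi, h1⟩ := ha
  exact ⟨i, hi, hsp i j (hj i hi) α h1⟩

end Fam

/-- A maximal point of `V \ U` obstructs depth two. -/
theorem DU.not_two (i0 : σ) {U V : Set (σ → ℤ)} (hU : IsUpperSet U) (hV : IsUpperSet V)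
    (α : σ → ℤ) (h1 : α ∈ V) (h2 : α ∉ U) (h3 : ∀ i, α + Pi.single i 1 ∈ U) (hUV : U ⊆ V) :
    ¬ DU K 2 U := by
  intro h
  let P : Submodule (MvPolynomial σ K) (N K V) := (N K U).comap (N K V).subtype
  have hle : N K U ≤ N K V := fun f hf a ha b hb => hUV (hf a ha b hb)
  have hP : Dp (mm K σ) 2 P := Dp.congr (Submodule.comapSubtypeEquivOfLe hle).symm h
  have hQ := Dp.quot P (DU.one i0 V) hP
  have hz : (sg α 1 : Lau K σ) ∈ N K V := (mem_N hV).mpr fun β hb => by
    by_cases h4 : α = β
    · exact h4 ▸ h1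
    · exact absurd (co_sg_ne 1 h4) hb
  have h5 := hQ.socle (Submodule.Quotient.mk ⟨sg α 1, hz⟩) (fun x hx => by
    induction hx using Submodule.span_induction with
    | mem x hx =>
      obtain ⟨i, rfl⟩ := hx
      rw [← Submodule.Quotient.mk_smul, Submodule.Quotient.mk_eq_zero]
      change (X i : MvPolynomial σ K) • (sg α 1 : Lau K σ) ∈ N K U
      refine (mem_N hU).mpr fun β hb => ?_
      rw [co_X_smul] at hb
      by_cases h4 : α = β - Pi.single i 1
      · have := h3 i
        rw [h4] at this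
        simpa using this
      · exact absurd (co_sg_ne 1 h4) hb
    | zero => simp
    | add x y _ _ hx hy => rw [add_smul, hx, hy, add_zero]
    | smul a x _ hx => rw [smul_eq_mul, mul_smul, hx, smul_zero])
  rw [Submodule.Quotient.mk_eq_zero] at h5
  exact h2 ((mem_N hU).mp h5 α (by
    change co (sg α 1 : Lau K σ) α ≠ 0
    rw [co_sg_self]; exact one_ne_zero))

omit [DecidableEq σ] in
theorem iota_inj : Function.Injective (iota (K := K) (σ := σ)) := by
  intro p q h
  ext s
  rw [← co_iota, ← co_iota, h]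

omit [DecidableEq σ] in
/-- A monomial ideal is isomorphic to the module `N U`. -/
theorem dp_ideal_iff [Finite σ] {U : Set (σ → ℤ)} (hU : IsUpperSet U) (h0 : ∀ α ∈ U, 0 ≤ α)
    (J : Ideal (MvPolynomial σ K)) (hJ : ∀ p, p ∈ J ↔ ∀ s, coeff s p ≠ 0 → emb s ∈ U) (n : ℕ) :
    Dp (mm K σ) n J ↔ DU K n U := by
  let φ : MvPolynomial σ K →ₗ[MvPolynomial σ K] Lau K σ := Algebra.linearMap _ _
  have hφ : ∀ p, φ p = iota p := fun _ => rfl
  have hmap : Submodule.map φ J = N K U := by
    ext f
    rw [mem_N hU, Submodule.mem_map]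
    constructor
    · rintro ⟨p, hp, rfl⟩ α ha
      rw [hφ] at ha
      obtain ⟨s, rfl⟩ := co_iota_ne p α ha
      rw [co_iota] at ha
      exact (hJ p).mp hp s ha
    · intro hf
      have hr : ∀ α, co f α ≠ 0 → ∃ s, emb s = α := fun α ha => by
        refine ⟨Finsupp.equivFunOnFinite.symm fun i => (α i).toNat, ?_⟩
        ext i
        simpa [emb] using h0 α (hf α ha) i
      let p : MvPolynomial σ K := AddMonoidAlgebra.ofCoeff
        (Finsupp.comapDomain emb (AddMonoidAlgebra.coeff f) emb_inj.injOn)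
      have hp : ∀ s, coeff s p = co f (emb s) := fun s => rfl
      refine ⟨p, (hJ p).mpr fun s hs => hf _ (by rwa [← hp]), co_ext fun α => ?_⟩
      rw [hφ]
      by_cases ha : ∃ s, emb s = α
      · obtain ⟨s, rfl⟩ := ha
        rw [co_iota, hp]
      · have h1 : co (iota p) α = 0 := by
          by_contra h2; exact ha (co_iota_ne p α h2)
        have h2 : co f α = 0 := by
          by_contra h2; exact ha (hr α h2)
        rw [h1, h2]
  have e := Submodule.equivMapOfInjective φ iota_inj J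
  rw [hmap] at e
  exact ⟨Dp.congr e, Dp.congr e.symm⟩

end Pool.Agent.H129Z.Dep
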